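import Pool.Agent.Q138.GS.ModH

/-!
# The Elliott-Halberstam estimate for almost all real dilations of the moduli

For a real `α > 0` the numbers `⌊α n + β⌋` with `n` in the class `a` modulo `q` are the integer parts of the real
arithmetic progression with the modulus `α q` through `α a + β`. For almost every `α` the primes are equidistributed
in these progressions up to level `1 - ε`: the sum over all `q ≤ N ^ (1 - ε)` and over powers of the logarithm many
given classes modulo each `q` of the absolute values of the errors is at most `N / (log N) ^ K`. The same holds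
for the simultaneous primality of the integer parts of several dilated sequences (polynomials or powers), with
arbitrary weights (for instance the primes `n` themselves), and for all classes modulo each `q` in mean square.
-/

set_option autoImplicit false

open Finset Filter Topology MeasureTheory
open scoped Classical

namespace Pool.Agent.Results.MP_00e23e_nt.ElliottHalberstamAtDilates

/-- `log m` if `m` is a prime number and zero otherwise -/
noncomputable def theta (m : ℕ) : ℝ := if m.Prime then Real.log m else 0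

/-- the sequence of the values of a nonconstant real polynomial with positive leading coefficient, or the
sequence `n ^ c` for a real `c > 0` -/
def Good (x : ℕ → ℝ) : Prop :=
  (∃ P : Polynomial ℝ, 1 ≤ P.natDegree ∧ 0 < P.leadingCoeff ∧ ∀ n : ℕ, x n = P.eval (n : ℝ)) ∨
    ∃ c : ℝ, 0 < c ∧ ∀ n : ℕ, x n = (n : ℝ) ^ c

/-- the number of elements `n` of `S` with `1 ≤ n ≤ N` -/
noncomputable def count (S : Set ℕ) (N : ℕ) : ℝ := ((Icc 1 N).filter (fun n => n ∈ S)).card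

/-- the sum of `t n` over the `n ≤ N` in the class of `a` modulo `q` -/
noncomputable def classSum (t : ℕ → ℂ) (q a N : ℕ) : ℂ := ∑ n ∈ (Icc 1 N).filter (fun n => n % q = a), t n

/-- the product of the weights of the integer parts minus its expected value one -/
noncomputable def dev {r : ℕ} (α β : Fin r → ℝ) (x : Fin r → ℕ → ℝ) (n : ℕ) : ℂ :=
  ((∏ i, theta ⌊α i * x i n + β i⌋₊ - 1 : ℝ) : ℂ)

/-- the set of all `n` for which all the integer parts are prime -/
def primeSet {r : ℕ} (α β : Fin r → ℝ) (x : Fin r → ℕ → ℝ) : Set ℕ :=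
  {n | ∀ i, (⌊α i * x i n + β i⌋₊).Prime}

theorem Good.sm {x : ℕ → ℝ} (h : Good x) : ∃ c : ℝ, Pool.Agent.Q138.GS.Sm c x := by
  rcases h with ⟨P, h1, h2, h3⟩ | ⟨c, h1, h2⟩
  · have e : x = fun n : ℕ => P.eval (n : ℝ) := funext h3
    rw [e]
    exact ⟨_, Pool.Agent.Q138.GS.sm_pol h1 h2⟩
  · have e : x = fun n : ℕ => (n : ℝ) ^ c := funext h2
    rw [e]
    exact ⟨_, Pool.Agent.Q138.GS.sm_rpow h1⟩

theorem theta_eq (n : ℕ) : ((theta n : ℝ) : ℂ) = Pool.Agent.Q138.GS.th n := Pool.Agent.Q138.GS.tr_eq n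

theorem sq_eq {r : ℕ} (α β : Fin (r + 1) → ℝ) (x : Fin (r + 1) → ℕ → ℝ) (g : ℕ → ℂ) (q a N : ℕ) :
    Pool.Agent.Q138.GS.Sq (Pool.Agent.Q138.GS.tq r (fun _ => Pool.Agent.Q138.GS.th) (fun _ => 1) x β g α) q a N =
      classSum (fun n => g n * dev α β x n) q a N := by
  unfold Pool.Agent.Q138.GS.Sq classSum
  refine sum_congr rfl fun n _ => ?_
  unfold Pool.Agent.Q138.GS.tq dev
  rw [prod_const_one]
  push_cast
  simp only [theta_eq]

theorem result :
    ∀ (k : ℕ) (x : Fin (k + 1) → ℕ → ℝ) (β : Fin (k + 1) → ℝ), (∀ i, Good (x i)) →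
    -- weighted mean squares
    (∀ (g : ℕ → ℂ) (C : ℝ) (B : ℕ), (∀ n : ℕ, 1 ≤ n → ‖g n‖ ≤ C * (Real.log (n + 3)) ^ B) →
      ∀ (w : ℕ → ℕ → ℝ) (C' : ℝ) (B' : ℕ), (∀ q a, 0 ≤ w q a) →
        (∀ Q : ℕ, ∑ q ∈ Icc 1 Q, ∑ a ∈ range q, w q a / (q : ℝ) ^ 2 ≤ C' * (Real.log (Q + 3)) ^ B') →
      ∀ᵐ α : Fin (k + 1) → ℝ, (∀ i, 0 < α i) → ∀ ε : ℝ, 0 < ε → ∀ K : ℕ, ∀ᶠ N : ℕ in atTop,
        ∑ q ∈ Icc 1 ⌊(N : ℝ) ^ (1 - ε)⌋₊, ∑ a ∈ range q,
          w q a * ‖classSum (fun n => g n * dev α β x n) q a N‖ ^ 2 ≤ (N : ℝ) ^ 2 / (Real.log N) ^ K) ∧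
    -- absolute values for given classes
    (∀ (g : ℕ → ℂ) (C : ℝ) (B : ℕ), (∀ n : ℕ, 1 ≤ n → ‖g n‖ ≤ C * (Real.log (n + 3)) ^ B) →
      ∀ (A : ℕ → Finset ℕ) (C' : ℝ) (B' : ℕ), (∀ q, A q ⊆ range q) →
        (∀ q, ((A q).card : ℝ) ≤ C' * (Real.log (q + 3)) ^ B') →
      ∀ᵐ α : Fin (k + 1) → ℝ, (∀ i, 0 < α i) → ∀ ε : ℝ, 0 < ε → ∀ K : ℕ, ∀ᶠ N : ℕ in atTop,
        ∀ M : ℕ, 1 ≤ M → M ≤ N → ∑ q ∈ Icc 1 ⌊(N : ℝ) ^ (1 - ε)⌋₊, ∑ a ∈ A q,
          ‖classSum (fun n => g n * dev α β x n) q a M‖ ≤ N / (Real.log N) ^ K) ∧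
    -- the number of primes in given classes
    (∀ (A : ℕ → Finset ℕ) (C' : ℝ) (B' : ℕ), (∀ q, A q ⊆ range q) →
        (∀ q, ((A q).card : ℝ) ≤ C' * (Real.log (q + 3)) ^ B') →
      ∀ᵐ α : Fin (k + 1) → ℝ, (∀ i, 0 < α i) → ∀ ε : ℝ, 0 < ε → ∀ K : ℕ, ∀ᶠ N : ℕ in atTop,
        ∑ q ∈ Icc 1 ⌊(N : ℝ) ^ (1 - ε)⌋₊, ∑ a ∈ A q,
          |count {n | n % q = a ∧ n ∈ primeSet α β x} N - count (primeSet α β x) N / q| ≤
            N / (Real.log N) ^ K) := by
  intro k x β hx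
  choose c hc using fun i => (hx i).sm
  choose A' C1 hC1 hbd using fun i => (hc i).bd
  refine ⟨fun g C B hg w C' B' hw0 hw => ?_, fun g C B hg A C' B' hA hAc => ?_, fun A C' B' hA hAc => ?_⟩
  · have h := Pool.Agent.Q138.GS.uq_sav k (fun _ => Pool.Agent.Q138.GS.th) (fun _ => Pool.Agent.Q138.GS.thw)
      (fun _ => 1) (fun _ n => Pool.Agent.Q138.GS.th_eq n) (fun _ n => Pool.Agent.Q138.GS.th_le n)
      x A' C1 hbd β (fun i => (hc i).uq Pool.Agent.Q138.GS.thw Pool.Agent.Q138.GS.thw_le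
        Pool.Agent.Q138.GS.neg_thw (β i)) g C B hg w hw0 C' B' hw
    unfold Pool.Agent.Q138.GS.pm at h
    rw [ae_restrict_iff' (Pool.Agent.Q138.GS.pos_meas _)] at h
    filter_upwards [h] with α hα hpos ε hε K
    filter_upwards [hα hpos ε hε K] with N hN
    unfold Pool.Agent.Q138.GS.GQ at hN
    simp only [sq_eq] at hN
    exact hN
  · have hC'0 : 0 ≤ C' := by
      have h1 := hAc 0
      have h2 : (0 : ℝ) ≤ (A 0).card := Nat.cast_nonneg _
      have h3 : 0 < (Real.log ((0 : ℕ) + 3)) ^ B' := pow_pos (Real.log_pos (by norm_num)) _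
      by_contra hcon
      push Not at hcon
      nlinarith
    have h := Pool.Agent.Q138.GS.uq_l1 k (fun _ => Pool.Agent.Q138.GS.th) (fun _ => Pool.Agent.Q138.GS.thw)
      (fun _ => 1) (fun _ n => Pool.Agent.Q138.GS.th_eq n) (fun _ n => Pool.Agent.Q138.GS.th_le n)
      x A' C1 hbd β (fun i => (hc i).uq Pool.Agent.Q138.GS.thw Pool.Agent.Q138.GS.thw_le
        Pool.Agent.Q138.GS.neg_thw (β i)) g C B hg A hA C' hC'0 B' hAc
    unfold Pool.Agent.Q138.GS.pm at h
    rw [ae_restrict_iff' (Pool.Agent.Q138.GS.pos_meas _)] at h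
    filter_upwards [h] with α hα hpos ε hε K
    filter_upwards [hα hpos ε hε K] with N hN M hM1 hMN
    refine le_trans (sum_le_sum fun q _ => sum_le_sum fun a _ => ?_) (hN M hM1 hMN)
    rw [sq_eq α β x g q a M]
    have h1 : 0 ≤ ‖Pool.Agent.Q138.GS.Sq (Pool.Agent.Q138.GS.tq k (fun _ => Pool.Agent.Q138.GS.th) (fun _ => 1)
      x β g α) 1 0 M‖ / q := by positivity
    linarith
  · have hC'0 : 0 ≤ C' := by
      have h1 := hAc 0
      have h2 : (0 : ℝ) ≤ (A 0).card := Nat.cast_nonneg _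
      have h3 : 0 < (Real.log ((0 : ℕ) + 3)) ^ B' := pow_pos (Real.log_pos (by norm_num)) _
      by_contra hcon
      push Not at hcon
      nlinarith
    have h := Pool.Agent.Q138.GS.eh_count k c x hc β A hA C' hC'0 B' hAc
    unfold Pool.Agent.Q138.GS.pm at h
    rw [ae_restrict_iff' (Pool.Agent.Q138.GS.pos_meas _)] at h
    filter_upwards [h] with α hα hpos ε hε K
    exact hα hpos ε hε K

end Pool.Agent.Results.MP_00e23e_nt.ElliottHalberstamAtDilates
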