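import Pool.Agent.Q120.LD.Final
import Pool.Agent.Q177.LD.ALLK
import Pool.Agent.Q177.LD.KAKB
import Pool.Agent.Q190.LD.KAKA
import Pool.Agent.Q190.LD.KAKZ
import Pool.Agent.Q210.LD.Hoe
import Pool.Agent.Q210.LD.Gcds
import Pool.Agent.Q210.LD.Sec
import Pool.Agent.Q224.LD.COL
import Pool.Agent.Q224.LD.CONF
import Pool.Agent.Q224.LD.MODK
import Pool.Agent.Q237.LD.Ptm
import Pool.Agent.Q237.LD.Delm
import Pool.Agent.Q237.LD.Rem
import Pool.Agent.Q237.LD.Sel
import Pool.Agent.Q68.LD.PTA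
import Pool.Agent.Q299.RZ.Tail
import Pool.Agent.Q299.RZ.Kl

/-!
# The Elliott–Halberstam conjecture for random sets and a Kakeya type problem

`A` is any random set of integers and `relEntropy μ A (low (k + 1))` the relative entropy (nats) of the law of
`A ∩ [3, 2 ^ (k + 1))` with respect to Cramér's model. `All δ P`: every random set with relative entropy at most
`2 ^ ((δ + o(1)) k)` has almost surely the property `P`. `dev S q a x` is the absolute value of the number of the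
`n ∈ S ∩ [3, x]`, `n ≡ a` modulo `q`, minus the sum of `1 / log n` over the `n ∈ [3, x]`, `n ≡ a` modulo `q`.
-/

set_option autoImplicit false

namespace Pool.Agent.Results.MP_00e23e_nt.EntropyAndKakeya

open Finset MeasureTheory Filter Pool.Agent.Q120.ET Pool.Agent.Q120.GE Pool.Agent.Q120.LD
open scoped Topology

theorem jobs : Pool.Agent.Q120.LD.Jobs2 where
  tail := Q299.RZ.t_TAIL
  kl := Q299.RZ.t_KL
  hoe := Pool.Agent.Q210.LD.t_HOE
  gcds := Pool.Agent.Q210.LD.t_GCDS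
  sec := Pool.Agent.Q210.LD.t_SEC
  ptm := Pool.Agent.Q237.LD.t_PTM
  pta := Pool.Agent.Q68.LD.t_PTA
  delm := Pool.Agent.Q237.LD.t_DELM
  col := Pool.Agent.Q224.LD.t_COL
  conf := Pool.Agent.Q224.LD.t_CONF
  modk := Pool.Agent.Q224.LD.t_MODK
  allk := Pool.Agent.Q177.LD.t_ALLK
  kaka := Pool.Agent.Q190.LD.t_KAKA
  kakb := Pool.Agent.Q177.LD.t_KAKB
  kakz := Pool.Agent.Q190.LD.t_KAKZ
  neg := Pool.Agent.Q237.LD.t_NEG

/-- (1) For `0 < θ < 1`, `0 ≤ δ`: all random sets of the class `δ` have the level of distribution `θ` (with a power saving and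
the maximum over all residues inside), if and only if the Kakeya type statement `Kak θ δ` on finite sets of integers holds.
(2) `Kak θ δ` holds for `θ < lvl δ = max (min 1 (2 - 2 δ)) (1 - δ / 2)`, so all random sets of the class `δ < 1` have the level
`lvl δ > 1 / 2`, which is `1` for `δ ≤ 1 / 2`. (3) The level `θ > r / (r + 1)` for all random sets of the class `δ` implies the
bound `m ^ ((r + 1) δ)` in the discrete Kakeya problem in dimension `r + 1`. (4) Almost surely for all moduli and residues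
the deviation is at most `C x ^ ε ((x ^ (1 + δ) / q) ^ (1/2) + x ^ δ)`; uniform asymptotics in all progressions to moduli
`q ≤ x ^ θ` hold for the whole class if and only if `θ ≤ 1 - δ`. -/
theorem result :
    (∀ θ δ : ℝ, 0 < θ → θ < 1 → 0 ≤ δ → (Pool.Agent.Q120.RZ.All δ (fun S => LevAt S θ) ↔ Kak θ δ)) ∧
    (∀ δ : ℝ, 0 ≤ δ → δ < 1 → Pool.Agent.Q120.RZ.All δ (fun S => Level S (max (min 1 (2 - 2 * δ)) (1 - δ / 2)))) ∧
    (∀ (r : ℕ) (θ δ : ℝ), 1 ≤ r → (r : ℝ) / (r + 1) < θ → θ < 1 → 0 ≤ δ → Pool.Agent.Q120.RZ.All δ (fun S => LevAt S θ) →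
      ∀ᶠ m : ℕ in atTop, ∀ E : Finset (Fin r → ℕ), (∀ d : Fin r → ℕ, (∀ i, 1 ≤ d i ∧ d i ≤ m) →
        ∃ a : Fin r → ℕ, (∀ i, a i ≤ m ^ 2) ∧ ∀ j : ℕ, j < m → (fun i => a i + j * d i) ∈ E) →
          (m : ℝ) ^ ((r + 1) * δ) ≤ (E.card : ℝ)) ∧
    (∀ δ : ℝ, 0 ≤ δ → δ < 1 → Pool.Agent.Q120.RZ.All δ (fun S => Point S δ) ∧
      ∀ θ : ℝ, θ ≤ 1 → (Pool.Agent.Q120.RZ.All δ (fun S => Unif S θ) ↔ θ ≤ 1 - δ)) := by
  refine ⟨fun θ δ h0 h1 h2 => lev_iff jobs h0 h1 h2, fun δ h0 h1 => level jobs h0 h1, fun r θ δ hr h0 h1 h2 h => ?_,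
    fun δ h0 h1 => ⟨jobs.pta jobs.tail jobs.ptm δ h0 h1, fun θ h2 => unif_iff jobs.tail jobs.kl jobs.ptm jobs.pta jobs.delm h0 h1 h2⟩⟩
  have hθ : 0 < θ := lt_of_le_of_lt (by positivity) h0
  exact jobs.kakz r θ δ hr h0 h2 ((lev_iff jobs hθ h1 h2).1 h)

end Pool.Agent.Results.MP_00e23e_nt.EntropyAndKakeya
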