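import Pool.Agent.Q148.TD.Fw

/-! Porter's asymptotic formula for the sums of `τ_k(p - l)`, known under the level of distribution
`1 - 1/k`, is true unconditionally for all but at most `x ^ (1 - 2/k) (log x) ^ B` shifts. -/

set_option autoImplicit false

namespace Pool.Agent.Results.MP_00e23e_nt.TitchmarshPorter

open Finset

/-- the number of the ordered factorizations of `n` into `k` positive factors (0 for `n = 0`) -/
def tau (k n : ℕ) : ℕ := (Nat.finMulAntidiag k n).card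

/-- the primes up to `y` -/
def P (y : ℕ) : Finset ℕ := (Icc 1 y).filter Nat.Prime

/-- the constant `C_k(h)`, with the product over the primes up to `Y` -/
noncomputable def C (k h Y : ℕ) : ℝ := ∏ p ∈ P Y,
  if p ∣ h then (1 - 1 / (p : ℝ)) ^ (k - 1) else 1 + (1 - (1 - 1 / (p : ℝ)) ^ (k - 1)) / ((p : ℝ) - 1)

theorem result (k : ℕ) (hk : 2 ≤ k) (A : ℕ) (ε : ℝ) (hε : 0 < ε) : ∃ B N₀ : ℕ, ∀ N : ℕ, N₀ ≤ N →
    ∃ Ex : Finset ℕ, (Ex.card : ℝ) ≤ (N : ℝ) ^ (1 - 2 / (k : ℝ)) * Real.log N ^ B ∧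
    ∀ b : ℕ, 1 ≤ b → (b : ℝ) ≤ N * Real.log N ^ A → b ∉ Ex → ∀ a : ℕ, 1 ≤ a → (a : ℝ) ≤ Real.log N ^ A →
      a.Coprime b → ∀ y Y : ℕ, y ≤ N → N ^ 2 ≤ Y →
      |∑ p ∈ P y, (tau k (a * p + b) : ℝ) - C k (a * b) Y / (k - 1).factorial * (y * Real.log N ^ (k - 2))| ≤
        ε * (C k (a * b) Y * (N * Real.log N ^ (k - 2))) ∧
      |∑ p ∈ P y, (tau k (Nat.dist (a * p) b) : ℝ) - C k (a * b) Y / (k - 1).factorial * (y * Real.log N ^ (k - 2))| ≤
        ε * (C k (a * b) Y * (N * Real.log N ^ (k - 2))) := by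
  obtain ⟨r, rfl⟩ : ∃ r, k = r + 2 := ⟨k - 2, by omega⟩
  obtain ⟨B, N₀, H⟩ := Pool.Agent.Q148.TD.forms_td r A ε hε
  have hC : ∀ h Y : ℕ, C (r + 2) h Y = Pool.Agent.Q148.TD.CC (r + 1) h Y := by
    intro h Y
    unfold C Pool.Agent.Q148.TD.CC
    apply prod_congr rfl
    intro p _
    unfold Pool.Agent.Q148.TD.sh Pool.Agent.Q148.TD.rho
    have : r + 2 - 1 = r + 1 := by omega
    rw [this]
    split_ifs
    · ring
    · ring
  have hθ : 2 * Pool.Agent.Q148.TD.θ (r + 1) - 1 = 1 - 2 / ((r + 2 : ℕ) : ℝ) := by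
    unfold Pool.Agent.Q148.TD.θ
    have h0 : (0 : ℝ) ≤ r := Nat.cast_nonneg r
    push_cast
    have h1 : (r : ℝ) + 1 + 1 ≠ 0 := by positivity
    have h2 : (r : ℝ) + 2 ≠ 0 := by positivity
    field_simp
    ring
  refine ⟨B, N₀, fun N hN => ?_⟩
  obtain ⟨Ex, hEx, HE⟩ := H N hN
  rw [hθ] at hEx
  refine ⟨Ex, hEx, fun b hb1 hb2 hbE a ha1 ha2 hab y Y hy hY => ?_⟩
  rw [hC]
  exact HE b hb1 hb2 hbE a ha1 ha2 hab y Y hy hY

end Pool.Agent.Results.MP_00e23e_nt.TitchmarshPorter
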