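import Pool.Agent.Q152.TypEHMain

/-!
# MP_00e23e_nt: the maximum over the residues inside, on average over a few typical translates

Let `b = (b_1, …, b_r)` be integers in `[1, H]`.  We consider the Elliott-Halberstam sum with the
maximum over the residues `l` inside the sum over the moduli, where the error `|E(y; d, l)|` is
replaced by its mean value over the residues `l + b_1, …, l + b_r` (and `y ≤ x` may depend on `d`,
`l`, `i`).

1. Level `x ^ (1 - ε)`.  For all but a proportion `O(x ^ (-U))` of the `r`-tuples `b` the sum over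
   ALL moduli `d ≤ D ≤ x ^ (1 - ε)` is at most `C x (1 / r + 1 / (log x) ^ U)`, for every `r ≥ 1`
   and every `H ≥ 1` with `H ≥ D ^ 2 x ^ (ε - 1)`.  So boundedly many translates suffice for every
   fixed precision, and `(log x) ^ U` translates for the quality of the Elliott-Halberstam
   conjecture.  More precisely, apart from an error `η d` which depends only on `x` and `d`, with
   `∑_{d ≤ x} η d ≤ C x / (log x) ^ U`, the mean value over the translates is at most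
   `C (1 / r + 1 / (log x) ^ U)` times the expected number of primes, for every single `d ≤ D` and
   every `l`.
2. Level `x / (log x) ^ B`, where the Elliott-Halberstam estimate for single residues is false
   (Friedlander and Granville): here the bound is `C x ((log x) ^ 2 / r + 1 / (log x) ^ U)`.

Method.  By the large sieve and the Bombieri-Vinogradov theorem the bound holds with the maximum
inside the sum if at most `d ^ 2 (log x) ^ B / x` residues are removed for every modulus `d`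
(`MP_188a10_nt.WeightedExceptional`).  For every `d ≤ D` and every `l` the number of the `i` for which
`l + b_i` is one of the exceptional residues is `O(1) + r / (log x) ^ U` for all but very few
tuples, by an exponential moment; for these `i` the Brun-Titchmarsh inequality is used.
-/

set_option autoImplicit false

open Finset

namespace Pool.Agent.Results.MP_00e23e_nt.TypicalTranslates

/-- `π(y; d, l)`: the number of primes `p ≤ y` with `p ≡ l (mod d)` -/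
noncomputable def primesAP (y : ℝ) (d l : ℕ) : ℕ :=
  ((Finset.Icc 1 ⌊y⌋₊).filter (fun p => p.Prime ∧ p ≡ l [MOD d])).card

/-- `E(y; d, l) = π(y; d, l) - li(y) / φ(d)` -/
noncomputable def E (y : ℝ) (d l : ℕ) : ℝ :=
  (primesAP y d l : ℝ) - (∫ t in (2 : ℝ)..y, 1 / Real.log t) / (Nat.totient d : ℝ)

/-- the mean value of `|E(y_i; d, l + b_i)|`, `1 ≤ i ≤ r`, where the terms with `l + b_i` not prime
to `d` are zero -/
noncomputable def mean (r : ℕ) (b : Fin r → ℕ) (d l : ℕ) (y : Fin r → ℝ) : ℝ :=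
  (∑ i, if (l + b i).Coprime d then |E (y i) d (l + b i)| else 0) / r

/-- all but at most `w H ^ r` of the `r`-tuples of integers in `[1, H]` have the property `P` -/
def AllBut (w : ℝ) (H r : ℕ) (P : (Fin r → ℕ) → Prop) : Prop :=
  ({b : Fin r → ℕ | (∀ i, 1 ≤ b i ∧ b i ≤ H) ∧ ¬ P b}.ncard : ℝ) ≤ w * (H : ℝ) ^ r

theorem ncard_eq (H r : ℕ) (F : (Fin r → ℕ) → Prop) :
    ({b : Fin r → ℕ | (∀ i, 1 ≤ b i ∧ b i ≤ H) ∧ F b}.ncard : ℝ) =
      Pool.Agent.Q152.Shifts.tup (Icc 1 H) r F := by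
  classical
  unfold Pool.Agent.Q152.Shifts.tup
  rw [← Set.ncard_coe_finset]
  congr 2
  ext b
  rw [mem_coe, mem_filter, Fintype.mem_piFinset]
  simp only [mem_Icc]
  rfl

theorem tup_le (H r : ℕ) (F : (Fin r → ℕ) → Prop) :
    Pool.Agent.Q152.Shifts.tup (Icc 1 H) r F ≤ (H : ℝ) ^ r := by
  classical
  unfold Pool.Agent.Q152.Shifts.tup
  rw [← Nat.cast_pow]
  apply Nat.cast_le.2
  refine (card_filter_le _ _).trans ?_
  rw [Fintype.card_piFinset]
  simp

theorem ncard_eq_tup (H r : ℕ) (P : (Fin r → ℕ) → Prop) :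
    ({b : Fin r → ℕ | (∀ i, 1 ≤ b i ∧ b i ≤ H) ∧ ¬ P b}.ncard : ℝ) =
      Pool.Agent.Q152.Shifts.tup (Icc 1 H) r (fun b => ¬ P b) := ncard_eq H r (fun b => ¬ P b)

theorem AllBut.of_tup {w w' : ℝ} {H r : ℕ} {P Q : (Fin r → ℕ) → Prop}
    (h : Pool.Agent.Q152.Shifts.tup (Icc 1 H) r (fun b => ¬ P b) ≤ w * (H : ℝ) ^ r) (hw : w ≤ w')
    (hPQ : ∀ b, P b → Q b) : AllBut w' H r Q := by
  unfold AllBut
  rw [ncard_eq_tup]
  refine (Pool.Agent.Q152.Shifts.tup_mono fun b _ hb hcon => hb (hPQ b hcon)).trans (h.trans ?_)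
  exact mul_le_mul_of_nonneg_right hw (by positivity)

theorem AllBut.trivial {w : ℝ} (hw : 1 ≤ w) (H r : ℕ) (P : (Fin r → ℕ) → Prop) :
    AllBut w H r P := by
  unfold AllBut
  rw [ncard_eq_tup]
  have h1 := tup_le H r (fun b => ¬ P b)
  refine h1.trans ?_
  calc (H : ℝ) ^ r = 1 * (H : ℝ) ^ r := (one_mul _).symm
    _ ≤ w * (H : ℝ) ^ r := mul_le_mul_of_nonneg_right hw (by positivity)

theorem mean_eq (r : ℕ) (b : Fin r → ℕ) (d l : ℕ) (y : Fin r → ℝ) :
    mean r b d l y = Pool.Agent.Q152.TypEH.tot r b d l y / r := rfl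

theorem one_le_log {x : ℝ} (hx : 3 ≤ x) : 1 ≤ Real.log x := by
  rw [Real.le_log_iff_exp_le (by linarith)]
  have := Real.exp_one_lt_d9
  linarith

theorem part1 (ε : ℝ) (hε : 0 < ε) (hε1 : ε < 1) (U : ℕ) : ∃ C : ℝ, ∀ x : ℝ, 3 ≤ x →
    ∃ η : ℕ → ℝ, (∀ d, 0 ≤ η d) ∧ ∑ d ∈ Icc 1 ⌊x⌋₊, η d ≤ C * (x / Real.log x ^ U) ∧
    ∀ D : ℝ, D ≤ x ^ (1 - ε) → ∀ H : ℕ, 1 ≤ H → D ^ 2 * x ^ (ε - 1) ≤ H → ∀ r : ℕ, 1 ≤ r →
      AllBut (C * x ^ (-(U : ℝ))) H r (fun b =>
        (∀ d ∈ Icc 1 ⌊D⌋₊, ∀ (l : ℕ) (y : Fin r → ℝ), (∀ i, 2 ≤ y i ∧ y i ≤ x) →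
          mean r b d l y ≤ η d + C * (1 / r + 1 / Real.log x ^ U) *
            (x / ((Nat.totient d : ℝ) * Real.log x))) ∧
        (∀ (l : ℕ → ℕ) (y : ℕ → Fin r → ℝ), (∀ d i, 2 ≤ y d i ∧ y d i ≤ x) →
          ∑ d ∈ Icc 1 ⌊D⌋₊, mean r b d (l d) (y d) ≤
            C * x * (1 / r + 1 / Real.log x ^ U))) := by
  obtain ⟨C0, hC0, N0, hN04, hcore⟩ := Pool.Agent.Q152.TypEH.core1 ε hε hε1 U
  obtain ⟨C3, hC31, hC3⟩ := Pool.Agent.Q152.TypEH.sum_inv_totient
  obtain ⟨C, hC⟩ : ∃ C : ℝ, C = (N0 : ℝ) ^ U + (2 * C0 + 3 * (2 * C0) * C3) := ⟨_, rfl⟩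
  have hCa : (N0 : ℝ) ^ U ≤ C := by rw [hC]; nlinarith
  have hN0r : (1 : ℝ) ≤ N0 := by
    have : 1 ≤ N0 := by omega
    exact_mod_cast this
  have hN0U : (1 : ℝ) ≤ (N0 : ℝ) ^ U := one_le_pow₀ hN0r
  have hCb : 2 * C0 + 3 * (2 * C0) * C3 ≤ C := by rw [hC]; linarith
  have hCc : 2 * C0 ≤ C := by nlinarith
  have hC1 : 1 ≤ C := by linarith
  refine ⟨C, fun x hx => ?_⟩
  have hx0 : 0 < x := by linarith
  have hΛ1 := one_le_log hx
  obtain ⟨Λ, hΛ⟩ : ∃ Λ : ℝ, Λ = Real.log x := ⟨_, rfl⟩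
  rw [← hΛ] at hΛ1 ⊢
  have hΛ0 : 0 < Λ := by linarith
  rcases lt_or_ge x N0 with hlt | hge
  · refine ⟨fun _ => 0, fun _ => le_rfl, ?_, ?_⟩
    · rw [sum_const_zero]
      positivity
    · intro D _ H _ _ r _
      apply AllBut.trivial
      rw [Real.rpow_neg hx0.le, Real.rpow_natCast, ← div_eq_mul_inv, le_div_iff₀ (by positivity),
        one_mul]
      exact (pow_le_pow_left₀ hx0.le hlt.le U).trans hCa
  · obtain ⟨N, hN⟩ : ∃ N : ℕ, N = ⌈x⌉₊ := ⟨_, rfl⟩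
    have hxN : x ≤ N := by rw [hN]; exact Nat.le_ceil x
    have hNx : (N : ℝ) ≤ 2 * x := by
      have := Nat.ceil_lt_add_one hx0.le
      rw [hN]
      linarith
    have hNN0 : N0 ≤ N := by exact_mod_cast hge.trans hxN
    have hNpos : (0 : ℝ) < N := by linarith
    have hΛN : Λ ≤ Real.log N := by rw [hΛ]; exact Real.log_le_log hx0 hxN
    have hlogN : 0 < Real.log N := by linarith
    obtain ⟨η, hη0, hηs, hη⟩ := hcore N hNN0
    have hdiv : (N : ℝ) / Real.log N ^ U ≤ 2 * (x / Λ ^ U) := by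
      rw [mul_div_assoc', div_le_div_iff₀ (by positivity) (by positivity)]
      have : Λ ^ U ≤ Real.log N ^ U := pow_le_pow_left₀ hΛ0.le hΛN U
      exact mul_le_mul hNx this (by positivity) (by positivity)
    have hηsum : ∑ d ∈ Icc 1 ⌊x⌋₊, η d ≤ 2 * C0 * (x / Λ ^ U) := by
      have h1 : ∑ d ∈ Icc 1 ⌊x⌋₊, η d ≤ ∑ d ∈ Icc 1 N, η d := by
        apply sum_le_sum_of_subset_of_nonneg
        · apply Icc_subset_Icc_right
          rw [hN]
          exact Nat.floor_le_ceil x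
        · intro d _ _
          exact hη0 d
      refine h1.trans (hηs.trans ?_)
      calc C0 * (N / Real.log N ^ U) ≤ C0 * (2 * (x / Λ ^ U)) :=
            mul_le_mul_of_nonneg_left hdiv (by linarith)
        _ = _ := by ring
    refine ⟨η, hη0, hηsum.trans (mul_le_mul_of_nonneg_right hCc (by positivity)), ?_⟩
    intro D hD H hH hDH r hr
    have hr0 : (0 : ℝ) < r := by exact_mod_cast hr
    have hfl : ((⌊D⌋₊ : ℕ) : ℝ) ^ 2 ≤ D ^ 2 := by
      rcases le_or_gt 0 D with h | h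
      · exact pow_le_pow_left₀ (Nat.cast_nonneg _) (Nat.floor_le h) 2
      · rw [Nat.floor_of_nonpos h.le]
        simp only [Nat.cast_zero, ne_eq, OfNat.ofNat_ne_zero, not_false_eq_true, zero_pow]
        positivity
    have hflx : ((⌊D⌋₊ : ℕ) : ℝ) ≤ x ^ (1 - ε) := by
      rcases le_or_gt 0 D with h | h
      · exact (Nat.floor_le h).trans hD
      · rw [Nat.floor_of_nonpos h.le]
        simp only [Nat.cast_zero]
        positivity
    have hmain := hη ⌊D⌋₊ (hflx.trans (Real.rpow_le_rpow hx0.le hxN (by linarith))) H hH (by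
      refine le_trans ?_ hDH
      apply mul_le_mul hfl _ (by positivity) (by positivity)
      exact Real.rpow_le_rpow_of_nonpos hx0 hxN (by linarith)) r
    have hw : (N : ℝ) ^ (-(U : ℝ)) ≤ C * x ^ (-(U : ℝ)) := by
      have h1 : (N : ℝ) ^ (-(U : ℝ)) ≤ x ^ (-(U : ℝ)) :=
        Real.rpow_le_rpow_of_nonpos hx0 hxN (by
          have : (0 : ℝ) ≤ U := Nat.cast_nonneg U
          linarith)
      have h2 : 0 ≤ x ^ (-(U : ℝ)) := by positivity
      nlinarith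
    refine AllBut.of_tup hmain hw ?_
    intro b hb
    have hpt : ∀ d ∈ Icc 1 ⌊D⌋₊, ∀ (l : ℕ) (y : Fin r → ℝ), (∀ i, 2 ≤ y i ∧ y i ≤ x) →
        mean r b d l y ≤ η d + 2 * C0 * (1 / r + 1 / Λ ^ U) *
          (x / ((Nat.totient d : ℝ) * Λ)) := by
      intro d hd l y hy
      have h1 := hb d hd l y (fun i => ⟨(hy i).1, (hy i).2.trans hxN⟩)
      have hφ : (0 : ℝ) < Nat.totient d := by
        exact_mod_cast Nat.totient_pos.mpr (by rw [mem_Icc] at hd; omega)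
      rw [mean_eq, div_le_iff₀ hr0]
      refine h1.trans ?_
      have h2 : (N : ℝ) / ((Nat.totient d : ℝ) * Real.log N) ≤
          2 * (x / ((Nat.totient d : ℝ) * Λ)) := by
        rw [mul_div_assoc', div_le_div_iff₀ (by positivity) (by positivity)]
        have : (Nat.totient d : ℝ) * Λ ≤ (Nat.totient d : ℝ) * Real.log N := by gcongr
        exact mul_le_mul hNx this (by positivity) (by positivity)
      have h3 : 1 + (r : ℝ) / Real.log N ^ U ≤ 1 + r / Λ ^ U := by gcongr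
      have h4 : C0 * (1 + (r : ℝ) / Real.log N ^ U) * (N / ((Nat.totient d : ℝ) * Real.log N)) ≤
          C0 * (1 + r / Λ ^ U) * (2 * (x / ((Nat.totient d : ℝ) * Λ))) := by
        apply mul_le_mul _ h2 (by positivity) (by positivity)
        exact mul_le_mul_of_nonneg_left h3 (by linarith)
      have h5 : C0 * (1 + r / Λ ^ U) * (2 * (x / ((Nat.totient d : ℝ) * Λ))) =
          2 * C0 * (1 / r + 1 / Λ ^ U) * (x / ((Nat.totient d : ℝ) * Λ)) * r := by
        field_simp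
      linarith
    refine ⟨fun d hd l y hy => (hpt d hd l y hy).trans ?_, fun l y hy => ?_⟩
    · have hφ : (0 : ℝ) < Nat.totient d := by
        exact_mod_cast Nat.totient_pos.mpr (by rw [mem_Icc] at hd; omega)
      have h1 : 2 * C0 * (1 / (r : ℝ) + 1 / Λ ^ U) ≤ C * (1 / r + 1 / Λ ^ U) :=
        mul_le_mul_of_nonneg_right hCc (by positivity)
      have h2 := mul_le_mul_of_nonneg_right h1
        (show 0 ≤ x / ((Nat.totient d : ℝ) * Λ) by positivity)
      linarith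
    · have h1 : ∑ d ∈ Icc 1 ⌊D⌋₊, mean r b d (l d) (y d) ≤ ∑ d ∈ Icc 1 ⌊D⌋₊, (η d +
          2 * C0 * (1 / r + 1 / Λ ^ U) * (x / ((Nat.totient d : ℝ) * Λ))) :=
        sum_le_sum fun d hd => hpt d hd (l d) (y d) (hy d)
      refine h1.trans ?_
      rw [sum_add_distrib]
      have hDx : ⌊D⌋₊ ≤ ⌊x⌋₊ := by
        apply Nat.le_floor
        refine hflx.trans ?_
        calc x ^ (1 - ε) ≤ x ^ (1 : ℝ) :=
              Real.rpow_le_rpow_of_exponent_le (by linarith) (by linarith)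
          _ = x := Real.rpow_one _
      have h2 : ∑ d ∈ Icc 1 ⌊D⌋₊, η d ≤ 2 * C0 * (x / Λ ^ U) := by
        refine le_trans ?_ hηsum
        apply sum_le_sum_of_subset_of_nonneg (Icc_subset_Icc_right hDx)
        intro d _ _
        exact hη0 d
      have h3 : ∑ d ∈ Icc 1 ⌊D⌋₊, 2 * C0 * (1 / (r : ℝ) + 1 / Λ ^ U) *
          (x / ((Nat.totient d : ℝ) * Λ)) ≤ 3 * (2 * C0) * C3 * (x * (1 / r + 1 / Λ ^ U)) := by
        have e1 : ∀ d ∈ Icc 1 ⌊D⌋₊, 2 * C0 * (1 / (r : ℝ) + 1 / Λ ^ U) *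
            (x / ((Nat.totient d : ℝ) * Λ)) =
            2 * C0 * (1 / (r : ℝ) + 1 / Λ ^ U) * (x / Λ) * (1 / (Nat.totient d : ℝ)) := by
          intro d hd
          have hφ : (0 : ℝ) < Nat.totient d := by
            exact_mod_cast Nat.totient_pos.mpr (by rw [mem_Icc] at hd; omega)
          field_simp
        rw [sum_congr rfl e1, ← mul_sum]
        have e2 : ∑ d ∈ Icc 1 ⌊D⌋₊, 1 / (Nat.totient d : ℝ) ≤ C3 * (3 * Λ) := by
          refine (hC3 _).trans ?_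
          apply mul_le_mul_of_nonneg_left _ (by linarith)
          rcases Nat.eq_zero_or_pos ⌊D⌋₊ with h0 | h0
          · rw [h0]
            simp only [Nat.cast_zero, Real.log_zero]
            linarith
          · have : Real.log ((⌊D⌋₊ : ℕ) : ℝ) ≤ Λ := by
              rw [hΛ]
              apply Real.log_le_log (by exact_mod_cast h0)
              exact (by exact_mod_cast hDx : ((⌊D⌋₊ : ℕ) : ℝ) ≤ (⌊x⌋₊ : ℕ)).trans
                (Nat.floor_le hx0.le)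
            linarith
        calc 2 * C0 * (1 / (r : ℝ) + 1 / Λ ^ U) * (x / Λ) *
              ∑ d ∈ Icc 1 ⌊D⌋₊, 1 / (Nat.totient d : ℝ)
            ≤ 2 * C0 * (1 / (r : ℝ) + 1 / Λ ^ U) * (x / Λ) * (C3 * (3 * Λ)) :=
              mul_le_mul_of_nonneg_left e2 (by positivity)
          _ = _ := by field_simp
      have h4 : 2 * C0 * (x / Λ ^ U) ≤ 2 * C0 * (x * (1 / r + 1 / Λ ^ U)) := by
        apply mul_le_mul_of_nonneg_left _ (by linarith)
        rw [div_eq_mul_one_div]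
        apply mul_le_mul_of_nonneg_left _ hx0.le
        have : (0 : ℝ) ≤ 1 / r := by positivity
        linarith
      have h5 := mul_le_mul_of_nonneg_right hCb
        (show 0 ≤ x * (1 / (r : ℝ) + 1 / Λ ^ U) by positivity)
      calc _ ≤ 2 * C0 * (x * (1 / (r : ℝ) + 1 / Λ ^ U)) +
            3 * (2 * C0) * C3 * (x * (1 / r + 1 / Λ ^ U)) := by linarith
        _ = (2 * C0 + 3 * (2 * C0) * C3) * (x * (1 / (r : ℝ) + 1 / Λ ^ U)) := by ring
        _ ≤ C * (x * (1 / (r : ℝ) + 1 / Λ ^ U)) := h5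
        _ = _ := by ring

theorem part2 (U : ℕ) : ∃ (B : ℕ) (C : ℝ), ∀ x : ℝ, 3 ≤ x →
    ∀ D : ℝ, D ≤ x / Real.log x ^ B → ∀ H : ℕ, 1 ≤ H → D ^ 2 * Real.log x ^ B / x ≤ H →
    ∀ r : ℕ, 1 ≤ r → AllBut (C * x ^ (-(U : ℝ))) H r (fun b =>
      ∀ (l : ℕ → ℕ) (y : ℕ → Fin r → ℝ), (∀ d i, 2 ≤ y d i ∧ y d i ≤ x) →
        ∑ d ∈ Icc 1 ⌊D⌋₊, mean r b d (l d) (y d) ≤
          C * x * (Real.log x ^ 2 / r + 1 / Real.log x ^ U)) := by
  obtain ⟨B, C0, hC0, N0, hN04, hcore⟩ := Pool.Agent.Q152.TypEH.core2 U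
  obtain ⟨x1, hx1⟩ := (Real.tendsto_log_atTop.eventually
    (Filter.eventually_ge_atTop ((2 : ℝ) ^ B))).exists_forall_of_atTop
  obtain ⟨M, hM⟩ : ∃ M : ℝ, M = max (N0 : ℝ) (max x1 1) := ⟨_, rfl⟩
  have hMN0 : (N0 : ℝ) ≤ M := by rw [hM]; exact le_max_left _ _
  have hMx1 : x1 ≤ M := by rw [hM]; exact (le_max_left _ _).trans (le_max_right _ _)
  have hM1 : 1 ≤ M := by rw [hM]; exact (le_max_right _ _).trans (le_max_right _ _)
  have hMU : 1 ≤ M ^ U := one_le_pow₀ hM1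
  obtain ⟨C, hC⟩ : ∃ C : ℝ, C = M ^ U + 8 * C0 := ⟨_, rfl⟩
  have hCa : M ^ U ≤ C := by rw [hC]; linarith
  have hCb : 8 * C0 ≤ C := by rw [hC]; linarith
  have hC1 : 1 ≤ C := by linarith
  refine ⟨B + 1, C, fun x hx D hD H hH hDH r hr => ?_⟩
  have hx0 : 0 < x := by linarith
  have hr0 : (0 : ℝ) < r := by exact_mod_cast hr
  rcases lt_or_ge x M with hlt | hge
  · apply AllBut.trivial
    rw [Real.rpow_neg hx0.le, Real.rpow_natCast, ← div_eq_mul_inv, le_div_iff₀ (by positivity),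
      one_mul]
    exact (pow_le_pow_left₀ hx0.le hlt.le U).trans hCa
  · have hΛ1 := one_le_log hx
    have hΛB := hx1 x (hMx1.trans hge)
    obtain ⟨Λ, hΛ⟩ : ∃ Λ : ℝ, Λ = Real.log x := ⟨_, rfl⟩
    rw [← hΛ] at hΛ1 hΛB hD hDH ⊢
    have hΛ0 : 0 < Λ := by linarith
    obtain ⟨N, hN⟩ : ∃ N : ℕ, N = ⌈x⌉₊ := ⟨_, rfl⟩
    have hxN : x ≤ N := by rw [hN]; exact Nat.le_ceil x
    have hNx : (N : ℝ) ≤ 2 * x := by
      have := Nat.ceil_lt_add_one hx0.le
      rw [hN]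
      linarith
    have hNN0 : N0 ≤ N := by exact_mod_cast hMN0.trans (hge.trans hxN)
    have hNpos : (0 : ℝ) < N := by linarith
    have hΛN : Λ ≤ Real.log N := by rw [hΛ]; exact Real.log_le_log hx0 hxN
    have hlogN : 0 < Real.log N := by linarith
    have hlogN2 : Real.log N ≤ 2 * Λ := by
      have h1 : Real.log N ≤ Real.log (2 * x) := Real.log_le_log hNpos hNx
      have h2 : Real.log (2 * x) = Real.log 2 + Λ := by
        rw [Real.log_mul (by norm_num) hx0.ne', hΛ]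
      have := Real.log_two_lt_d9
      linarith
    have hpow : Real.log N ^ B ≤ Λ ^ (B + 1) := by
      calc Real.log N ^ B ≤ (2 * Λ) ^ B := pow_le_pow_left₀ hlogN.le hlogN2 B
        _ = 2 ^ B * Λ ^ B := mul_pow _ _ _
        _ ≤ Λ * Λ ^ B := by gcongr
        _ = Λ ^ (B + 1) := by ring
    have hfl : ((⌊D⌋₊ : ℕ) : ℝ) ^ 2 ≤ D ^ 2 := by
      rcases le_or_gt 0 D with h | h
      · exact pow_le_pow_left₀ (Nat.cast_nonneg _) (Nat.floor_le h) 2
      · rw [Nat.floor_of_nonpos h.le]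
        simp only [Nat.cast_zero, ne_eq, OfNat.ofNat_ne_zero, not_false_eq_true, zero_pow]
        positivity
    have hflx : ((⌊D⌋₊ : ℕ) : ℝ) ≤ N / Real.log N ^ B := by
      have h1 : x / Λ ^ (B + 1) ≤ N / Real.log N ^ B := by
        apply div_le_div₀ hNpos.le hxN (by positivity) hpow
      refine le_trans ?_ h1
      rcases le_or_gt 0 D with h | h
      · exact (Nat.floor_le h).trans hD
      · rw [Nat.floor_of_nonpos h.le]
        simp only [Nat.cast_zero]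
        positivity
    have hmain := hcore N hNN0 ⌊D⌋₊ hflx H hH (by
      refine le_trans ?_ hDH
      apply div_le_div₀ (by positivity) _ hx0 hxN
      exact mul_le_mul hfl hpow (by positivity) (by positivity)) r
    have hw : (N : ℝ) ^ (-(U : ℝ)) ≤ C * x ^ (-(U : ℝ)) := by
      have h1 : (N : ℝ) ^ (-(U : ℝ)) ≤ x ^ (-(U : ℝ)) :=
        Real.rpow_le_rpow_of_nonpos hx0 hxN (by
          have : (0 : ℝ) ≤ U := Nat.cast_nonneg U
          linarith)
      have h2 : 0 ≤ x ^ (-(U : ℝ)) := by positivity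
      nlinarith
    refine AllBut.of_tup hmain hw ?_
    intro b hb l y hy
    have h1 := hb l y (fun d i => ⟨(hy d i).1, (hy d i).2.trans hxN⟩)
    have e1 : ∑ d ∈ Icc 1 ⌊D⌋₊, mean r b d (l d) (y d) =
        (∑ d ∈ Icc 1 ⌊D⌋₊, Pool.Agent.Q152.TypEH.tot r b d (l d) (y d)) / r := by
      rw [sum_div]
      rfl
    rw [e1, div_le_iff₀ hr0]
    refine h1.trans ?_
    have h2 : Real.log N ^ 2 + (r : ℝ) / Real.log N ^ U ≤ 4 * (Λ ^ 2 + r / Λ ^ U) := by
      have e2 : Real.log N ^ 2 ≤ (2 * Λ) ^ 2 := pow_le_pow_left₀ hlogN.le hlogN2 2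
      have e3 : (r : ℝ) / Real.log N ^ U ≤ r / Λ ^ U := by gcongr
      have e4 : (0 : ℝ) ≤ r / Λ ^ U := by positivity
      nlinarith
    calc C0 * N * (Real.log N ^ 2 + (r : ℝ) / Real.log N ^ U)
        ≤ C0 * (2 * x) * (4 * (Λ ^ 2 + r / Λ ^ U)) := by gcongr
      _ = 8 * C0 * (x * (Λ ^ 2 + r / Λ ^ U)) := by ring
      _ ≤ C * (x * (Λ ^ 2 + r / Λ ^ U)) := mul_le_mul_of_nonneg_right hCb (by positivity)
      _ = C * x * (Λ ^ 2 / r + 1 / Λ ^ U) * r := by field_simp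

theorem result :
    (∀ ε : ℝ, 0 < ε → ε < 1 → ∀ U : ℕ, ∃ C : ℝ, ∀ x : ℝ, 3 ≤ x →
      ∃ η : ℕ → ℝ, (∀ d, 0 ≤ η d) ∧ ∑ d ∈ Icc 1 ⌊x⌋₊, η d ≤ C * (x / Real.log x ^ U) ∧
      ∀ D : ℝ, D ≤ x ^ (1 - ε) → ∀ H : ℕ, 1 ≤ H → D ^ 2 * x ^ (ε - 1) ≤ H → ∀ r : ℕ, 1 ≤ r →
        AllBut (C * x ^ (-(U : ℝ))) H r (fun b =>
          (∀ d ∈ Icc 1 ⌊D⌋₊, ∀ (l : ℕ) (y : Fin r → ℝ), (∀ i, 2 ≤ y i ∧ y i ≤ x) →
            mean r b d l y ≤ η d + C * (1 / r + 1 / Real.log x ^ U) *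
              (x / ((Nat.totient d : ℝ) * Real.log x))) ∧
          (∀ (l : ℕ → ℕ) (y : ℕ → Fin r → ℝ), (∀ d i, 2 ≤ y d i ∧ y d i ≤ x) →
            ∑ d ∈ Icc 1 ⌊D⌋₊, mean r b d (l d) (y d) ≤
              C * x * (1 / r + 1 / Real.log x ^ U)))) ∧
    (∀ U : ℕ, ∃ (B : ℕ) (C : ℝ), ∀ x : ℝ, 3 ≤ x →
      ∀ D : ℝ, D ≤ x / Real.log x ^ B → ∀ H : ℕ, 1 ≤ H → D ^ 2 * Real.log x ^ B / x ≤ H →
      ∀ r : ℕ, 1 ≤ r → AllBut (C * x ^ (-(U : ℝ))) H r (fun b =>
        ∀ (l : ℕ → ℕ) (y : ℕ → Fin r → ℝ), (∀ d i, 2 ≤ y d i ∧ y d i ≤ x) →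
          ∑ d ∈ Icc 1 ⌊D⌋₊, mean r b d (l d) (y d) ≤
            C * x * (Real.log x ^ 2 / r + 1 / Real.log x ^ U))) :=
  ⟨part1, part2⟩

end Pool.Agent.Results.MP_00e23e_nt.TypicalTranslates
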